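import Mathlib

/-!
# Lipschitz (and more general) injections between `ℵ₁`-dense sets need not exist

For a function `h : ℕ → ℕ` there are `ℵ₁`-dense subsets `A` and `B` of `2^ω` (and of `ω^ω`) such that
no function with modulus of continuity `h` maps `A` injectively into `B`.

Proof. The members `a ξ` of `A` are sparse, and every member of `B` with index `ξ` codes all `a η`
with `η ≤ ξ`, in such a way that an initial segment of a member of `B` determines a much longer
initial segment of `a η`. If `f` maps `A` injectively into `B` then for uncountably many `ξ` the index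
of `f (a ξ)` is at least `ξ`, so that `f (a ξ)` codes `a ξ`. For uncountably many `ξ` the code is the
same, and two of the points `a ξ` contradict the modulus of continuity.
-/

set_option autoImplicit false

open Set Cardinal

namespace Pool.Agent.N642.Lip

/-- the well-ordered set `ω₁` -/
abbrev W : Type := (ℵ₁ : Cardinal.{0}).ord.ToType

theorem mk_W : #W = ℵ₁ := mk_ord_toType _

theorem countable_Iio (δ : W) : (Iio δ).Countable := by
  rw [← le_aleph0_iff_set_countable, ← Order.lt_succ_iff, succ_aleph0]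
  exact mk_Iio_toType_ord_lt δ

theorem countable_Iic (δ : W) : (Iic δ).Countable := by
  rw [← Iio_insert]
  exact (countable_Iio δ).insert δ

theorem not_countable_univ : ¬ (univ : Set W).Countable := by
  intro h
  have h1 := h.le_aleph0
  rw [mk_univ, mk_W] at h1
  exact absurd h1 (not_le.2 aleph0_lt_aleph_one)

/-- countable sets are strictly bounded -/
theorem exists_gt {S : Set W} (hS : S.Countable) : ∃ b, ∀ s ∈ S, s < b := by
  by_contra hcon
  push Not at hcon
  refine not_countable_univ ?_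
  have : (univ : Set W) ⊆ ⋃ s ∈ S, Iic s := by
    intro b _
    obtain ⟨s, hs, hb⟩ := hcon b
    exact mem_iUnion₂.2 ⟨s, hs, hb⟩
  exact (hS.biUnion fun s _ => countable_Iic s).mono this

/-- pressing down: a function with countable fibres is not regressive on a co-countable set -/
theorem not_countable_le {g : W → W} (hg : ∀ η, {ξ | g ξ = η}.Countable) :
    ¬ {ξ | ξ ≤ g ξ}.Countable := by
  intro hT
  obtain ⟨δ₀, hδ₀⟩ := exists_gt hT
  have hle : ∀ η, {ξ | g ξ ≤ η}.Countable := by
    intro η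
    have : {ξ | g ξ ≤ η} ⊆ ⋃ ζ ∈ Iic η, {ξ | g ξ = ζ} := fun ξ hξ =>
      mem_iUnion₂.2 ⟨g ξ, hξ, rfl⟩
    exact ((countable_Iic η).biUnion fun ζ _ => hg ζ).mono this
  choose b hb using fun η => exists_gt ((hle η).union (countable_singleton η))
  let d : ℕ → W := fun n => Nat.rec δ₀ (fun _ x => b x) n
  have hd : ∀ n, d (n + 1) = b (d n) := fun n => rfl
  obtain ⟨u, hu⟩ := exists_gt (countable_range d)
  obtain ⟨δ, hδ, hmin⟩ := (wellFounded_lt : WellFounded fun a b : W => a < b).has_min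
    {z | ∀ n, d n < z} ⟨u, fun n => hu _ (mem_range_self n)⟩
  have h1 : g δ < δ := by
    by_contra hcon
    have := hδ₀ δ (not_lt.1 hcon)
    exact absurd (hδ 0) (not_lt.2 this.le)
  obtain ⟨n, hn⟩ : ∃ n, g δ ≤ d n := by
    by_contra hcon
    push Not at hcon
    exact hmin (g δ) hcon h1
  have h2 : δ < d (n + 1) := by
    rw [hd]
    exact hb (d n) δ (Or.inl hn)
  exact absurd (hδ (n + 1)) (not_lt.2 h2.le)

/-- `A ⊆ Z` is `ℵ₁`-dense: `|A ∩ U| = ℵ₁` for every nonempty open set `U`. -/
def AlephOneDense {Z : Type} [TopologicalSpace Z] (A : Set Z) : Prop :=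
  ∀ U : Set Z, IsOpen U → U.Nonempty → #(A ∩ U : Set Z) = ℵ₁

/-- `f` has the modulus of continuity `h` eventually: for all large `k`, `x|h(k) = y|h(k)` implies
`f(x)|k = f(y)|k` -/
def HasModulus {α : Type} (h : ℕ → ℕ) (f : (ℕ → α) → ℕ → α) : Prop :=
  ∃ K : ℕ, ∀ k ≥ K, ∀ x y : ℕ → α, (∀ i < h k, x i = y i) → ∀ i < k, f x i = f y i

section

variable {α : Type}

/-- put the finite sequence `u` in place of the first entries of `x` -/
def app (u : List α) (x : ℕ → α) : ℕ → α := fun i => if h : i < u.length then u[i] else x i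

/-- the basic open set given by a finite sequence -/
def cyl (u : List α) : Set (ℕ → α) := {x | ∀ i (h : i < u.length), x i = u[i]}

theorem app_mem (u : List α) (x : ℕ → α) : app u x ∈ cyl u := fun i h => by simp [app, h]

theorem app_ge (u : List α) (x : ℕ → α) {i : ℕ} (h : u.length ≤ i) : app u x i = x i := by
  simp [app, not_lt.2 h]

variable [TopologicalSpace α] [DiscreteTopology α]

omit [DiscreteTopology α] in
theorem exists_cyl_subset {U : Set (ℕ → α)} (hU : IsOpen U) (hne : U.Nonempty) :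
    ∃ u : List α, cyl u ⊆ U := by
  obtain ⟨x, hx⟩ := hne
  obtain ⟨E, v, hv, hs⟩ := isOpen_pi_iff.1 hU x hx
  obtain ⟨N, hN⟩ : ∃ N, ∀ i ∈ E, i < N :=
    ⟨E.sup id + 1, fun i hi => Nat.lt_succ_of_le (Finset.le_sup (f := id) hi)⟩
  refine ⟨(List.range N).map x, fun y hy => hs fun i hi => ?_⟩
  have h1 : i < ((List.range N).map x).length := by simpa using hN i hi
  have h2 := hy i h1
  simp only [List.getElem_map, List.getElem_range] at h2
  rw [h2]
  exact (hv i hi).2

variable [Countable α]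

omit [DiscreteTopology α] in
/-- a family of points `x ξ` such that no point is equal to uncountably many `x ξ` modulo finite
initial segments gives an `ℵ₁`-dense set -/
theorem dense_of_family (x : W → ℕ → α)
    (hx : ∀ (u : List α) (z : ℕ → α), {ξ | app u (x ξ) = z}.Countable) :
    AlephOneDense (range fun p : List α × W => app p.1 (x p.2)) := by
  intro U hU hne
  refine le_antisymm ?_ ?_
  · refine (mk_le_mk_of_subset inter_subset_left).trans (mk_range_le.trans ?_)
    rw [mk_prod, lift_id, lift_id, mk_W]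
    refine (mul_le_mul' (mk_le_aleph0 (α := List α)) le_rfl).trans ?_
    exact (aleph0_mul_eq aleph0_lt_aleph_one.le).le
  · obtain ⟨u, hu⟩ := exists_cyl_subset hU hne
    by_contra hcon
    rw [not_le, ← succ_aleph0, Order.lt_succ_iff] at hcon
    have hc : ((range fun p : List α × W => app p.1 (x p.2)) ∩ U).Countable :=
      le_aleph0_iff_set_countable.1 hcon
    refine not_countable_univ ?_
    have : (univ : Set W) ⊆ ⋃ z ∈ (range fun p : List α × W => app p.1 (x p.2)) ∩ U,
        {ξ | app u (x ξ) = z} := by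
      intro ξ _
      exact mem_iUnion₂.2 ⟨app u (x ξ), ⟨⟨(u, ξ), rfl⟩, hu (app_mem u _)⟩, rfl⟩
    exact (hc.biUnion fun z _ => hx u z).mono this

/-- the sequence of the sparse positions -/
def pos (h : ℕ → ℕ) (j : ℕ) : ℕ := j + ∑ k ∈ Finset.range ((j + 1) ^ 2 + 1), h k

theorem pos_strictMono (h : ℕ → ℕ) : StrictMono (pos h) := by
  refine strictMono_nat_of_lt_succ fun j => ?_
  unfold pos
  have h1 : Finset.range ((j + 1) ^ 2 + 1) ⊆ Finset.range ((j + 1 + 1) ^ 2 + 1) := by
    refine Finset.range_subset_range.2 ?_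
    have : (j + 1) ^ 2 ≤ (j + 1 + 1) ^ 2 := Nat.pow_le_pow_left (by omega) 2
    omega
  have h2 := Finset.sum_le_sum_of_subset (f := h) h1
  omega

theorem pos_ge (h : ℕ → ℕ) (i j : ℕ) (hij : i ≤ j) : h (Nat.pair i j + 1) ≤ pos h j := by
  have h1 := Nat.pair_lt_max_add_one_sq i j
  rw [max_eq_right hij] at h1
  have h2 : Nat.pair i j + 1 ∈ Finset.range ((j + 1) ^ 2 + 1) := by
    rw [Finset.mem_range]
    omega
  have h3 := Finset.single_le_sum (f := h) (fun _ _ => Nat.zero_le _) h2
  unfold pos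
  omega

variable [Nontrivial α]

omit [DiscreteTopology α] [TopologicalSpace α] [Countable α] in
/-- `ℵ₁` many sequences, any two of which differ infinitely often -/
theorem exists_seq : ∃ x : W → ℕ → α, ∀ ξ η, ξ ≠ η → ∀ m, ∃ j ≥ m, x ξ j ≠ x η j := by
  classical
  obtain ⟨z₀, z₁, hz⟩ := exists_pair_ne α
  have h1 : #W ≤ #(ℕ → Bool) := by
    rw [mk_W]
    have : #(ℕ → Bool) = 𝔠 := by simp
    rw [this]
    exact aleph_one_le_continuum
  obtain ⟨r⟩ := h1
  refine ⟨fun ξ j => if r ξ (Nat.unpair j).2 then z₁ else z₀, fun ξ η hne m => ?_⟩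
  obtain ⟨l, hl⟩ : ∃ l, r ξ l ≠ r η l := by
    by_contra hcon
    push Not at hcon
    exact hne (r.injective (funext hcon))
  refine ⟨Nat.pair m l, Nat.left_le_pair m l, ?_⟩
  simp only [Nat.unpair_pair]
  cases h1 : r ξ l <;> cases h2 : r η l
  · exact absurd (h1.trans h2.symm) hl
  · simpa using hz
  · simpa using hz.symm
  · exact absurd (h1.trans h2.symm) hl

omit [DiscreteTopology α] in
/-- **Main theorem.** -/
theorem main (h : ℕ → ℕ) : ∃ A B : Set (ℕ → α), AlephOneDense A ∧ AlephOneDense B ∧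
    ∀ f : (ℕ → α) → ℕ → α, HasModulus h f → ¬ (InjOn f A ∧ f '' A ⊆ B) := by
  classical
  obtain ⟨x, hx⟩ := exists_seq (α := α)
  obtain ⟨z₀⟩ : Nonempty α := inferInstance
  -- the sparse sequences
  let a : W → ℕ → α := fun ξ m => if hm : ∃ j, pos h j = m then x ξ hm.choose else z₀
  have ha : ∀ ξ j, a ξ (pos h j) = x ξ j := by
    intro ξ j
    have hm : ∃ i, pos h i = pos h j := ⟨j, rfl⟩
    have h1 : hm.choose = j := (pos_strictMono h).injective hm.choose_spec
    simp only [a, dif_pos hm, h1]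
  have ha' : ∀ ξ m, (¬ ∃ j, pos h j = m) → a ξ m = z₀ := fun ξ m hm => dif_neg hm
  -- the coding sequences
  have hcnt : ∀ ξ : W, ∃ e : ℕ → W, range e = Iic ξ := fun ξ =>
    ((countable_Iic ξ).exists_eq_range ⟨ξ, mem_Iic.2 le_rfl⟩).imp fun e he => he.symm
  choose e he using hcnt
  let b : W → ℕ → α := fun ξ m => x (e ξ (Nat.unpair m).1) (Nat.unpair m).2
  have hb : ∀ ξ i j, b ξ (Nat.pair i j) = x (e ξ i) j := by
    intro ξ i j
    simp only [b, Nat.unpair_pair]
  -- a family of points which determine the index is dense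
  have denseA : AlephOneDense (range fun p : List α × W => app p.1 (a p.2)) := by
    refine dense_of_family a fun u z => ?_
    refine Set.Subsingleton.countable fun ξ hξ η hη => ?_
    by_contra hne
    obtain ⟨j, hj, hj'⟩ := hx ξ η hne u.length
    have h1 : u.length ≤ pos h j := hj.trans ((pos_strictMono h).id_le j)
    apply hj'
    rw [← ha ξ j, ← ha η j, ← app_ge u (a ξ) h1, ← app_ge u (a η) h1]
    exact congrFun ((show app u (a ξ) = z from hξ).trans (show app u (a η) = z from hη).symm) _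
  have codeb : ∀ (u : List α) (z : ℕ → α) (i : ℕ) (ξ η : W), app u (b ξ) = z → app u (b η) = z →
      e ξ i = e η i := by
    intro u z i ξ η h1 h2
    by_contra hne
    obtain ⟨j, hj, hj'⟩ := hx _ _ hne u.length
    have h3 : u.length ≤ Nat.pair i j := hj.trans (Nat.right_le_pair i j)
    apply hj'
    rw [← hb ξ, ← hb η, ← app_ge u (b ξ) h3, ← app_ge u (b η) h3, h1, h2]
  have denseB : AlephOneDense (range fun p : List α × W => app p.1 (b p.2)) := by
    refine dense_of_family b fun u z => ?_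
    by_cases hne : ∃ ξ₀, app u (b ξ₀) = z
    · obtain ⟨ξ₀, hξ₀⟩ := hne
      refine (countable_Iic ξ₀).mono fun ξ hξ => ?_
      have h1 : range (e ξ) = range (e ξ₀) := congrArg range (funext fun i =>
        codeb u z i ξ ξ₀ hξ hξ₀)
      rw [he, he] at h1
      rw [← h1]
      exact mem_Iic.2 le_rfl
    · push Not at hne
      refine Set.Subsingleton.countable fun ξ hξ => absurd hξ (hne ξ)
  refine ⟨_, _, denseA, denseB, ?_⟩
  rintro f ⟨K, hK⟩ ⟨hinj, hmap⟩
  have hmem : ∀ ξ, a ξ ∈ range fun p : List α × W => app p.1 (a p.2) := fun ξ =>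
    ⟨([], ξ), funext fun m => app_ge [] (a ξ) (Nat.zero_le m)⟩
  have ainj : ∀ ξ η, a ξ = a η → ξ = η := by
    intro ξ η hab
    by_contra hne
    obtain ⟨j, -, hj⟩ := hx ξ η hne 0
    apply hj
    rw [← ha, ← ha, hab]
  have hval : ∀ ξ, ∃ (t : List α) (g : W), f (a ξ) = app t (b g) := by
    intro ξ
    obtain ⟨⟨t, g⟩, hg⟩ := hmap (mem_image_of_mem f (hmem ξ))
    exact ⟨t, g, hg.symm⟩
  choose t g htg using hval
  have hfib : ∀ η, {ξ | g ξ = η}.Countable := by
    intro η
    have h1 : {ξ | g ξ = η} ⊆ ⋃ u : List α, {ξ | g ξ = η ∧ t ξ = u} := fun ξ hξ =>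
      mem_iUnion.2 ⟨t ξ, hξ, rfl⟩
    refine (countable_iUnion fun u => Set.Subsingleton.countable ?_).mono h1
    rintro ξ ⟨h2, h3⟩ ζ ⟨h4, h5⟩
    refine ainj ξ ζ (hinj (hmem ξ) (hmem ζ) ?_)
    rw [htg, htg, h2, h3, h4, h5]
  have hunc := not_countable_le hfib
  -- the code of `a ξ` in `f (a ξ)`
  have hcode : ∀ ξ, ξ ≤ g ξ → ∃ i, e (g ξ) i = ξ := by
    intro ξ hξ
    have : ξ ∈ range (e (g ξ)) := by
      rw [he]
      exact hξ
    exact this
  obtain ⟨u, i, hui⟩ : ∃ (u : List α) (i : ℕ), ¬ {ξ | t ξ = u ∧ e (g ξ) i = ξ}.Countable := by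
    by_contra hcon
    push Not at hcon
    apply hunc
    have : {ξ | ξ ≤ g ξ} ⊆ ⋃ (u : List α), ⋃ (i : ℕ), {ξ | t ξ = u ∧ e (g ξ) i = ξ} := by
      intro ξ hξ
      obtain ⟨i, hi⟩ := hcode ξ hξ
      exact mem_iUnion₂.2 ⟨t ξ, i, rfl, hi⟩
    exact (countable_iUnion fun u => countable_iUnion fun i => hcon u i).mono this
  -- a large number
  let j₀ : ℕ := max (max u.length i) K
  have hj₁ : u.length ≤ j₀ := (le_max_left _ _).trans (le_max_left _ _)
  have hj₂ : i ≤ j₀ := (le_max_right _ _).trans (le_max_left _ _)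
  have hj₃ : K ≤ j₀ := le_max_right _ _
  obtain ⟨v, hv⟩ : ∃ v : Fin (pos h j₀) → α,
      ¬ {ξ | (t ξ = u ∧ e (g ξ) i = ξ) ∧ (fun m : Fin (pos h j₀) => a ξ m) = v}.Countable := by
    by_contra hcon
    push Not at hcon
    apply hui
    have : {ξ | t ξ = u ∧ e (g ξ) i = ξ} ⊆ ⋃ v : Fin (pos h j₀) → α,
        {ξ | (t ξ = u ∧ e (g ξ) i = ξ) ∧ (fun m : Fin (pos h j₀) => a ξ m) = v} := fun ξ hξ =>
      mem_iUnion.2 ⟨_, hξ, rfl⟩
    exact (countable_iUnion hcon).mono this
  obtain ⟨ξ, hξ, η, hη, hne⟩ : ({ξ | (t ξ = u ∧ e (g ξ) i = ξ) ∧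
      (fun m : Fin (pos h j₀) => a ξ m) = v}).Nontrivial := by
    by_contra hcon
    exact hv (Set.not_nontrivial_iff.1 hcon).countable
  obtain ⟨⟨h1, h2⟩, h3⟩ := hξ
  obtain ⟨⟨h4, h5⟩, h6⟩ := hη
  -- the first difference
  have hdiff : ∃ m, a ξ m ≠ a η m := by
    by_contra hcon
    push Not at hcon
    exact hne (ainj _ _ (funext hcon))
  have hn := Nat.find_spec hdiff
  have hmin : ∀ m < Nat.find hdiff, a ξ m = a η m := fun m hm => by
    by_contra hcon
    exact Nat.find_min hdiff hm hcon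
  obtain ⟨j, hj⟩ : ∃ j, pos h j = Nat.find hdiff := by
    by_contra hcon
    exact hn ((ha' ξ _ hcon).trans (ha' η _ hcon).symm)
  have hj₀ : j₀ ≤ j := by
    by_contra hcon
    have h7 : pos h j < pos h j₀ := (pos_strictMono h) (not_le.1 hcon)
    have h8 := congrFun (h3.trans h6.symm) ⟨pos h j, h7⟩
    rw [← hj] at hn
    exact hn h8
  rw [← hj] at hn hmin
  rw [ha, ha] at hn
  have hk : Nat.pair i j + 1 ≥ K := by
    have := Nat.right_le_pair i j
    omega
  have hagree := hK (Nat.pair i j + 1) hk (a ξ) (a η)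
    (fun m hm => hmin m (lt_of_lt_of_le hm (pos_ge h i j (hj₂.trans hj₀)))) (Nat.pair i j)
    (Nat.lt_succ_self _)
  have hlen : u.length ≤ Nat.pair i j := (hj₁.trans hj₀).trans (Nat.right_le_pair i j)
  rw [htg, htg, h1, h4, app_ge _ _ hlen, app_ge _ _ hlen, hb, hb, h2, h5] at hagree
  exact hn hagree

end

end Pool.Agent.N642.Lip
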